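import Pool.Agent.H15.TauD2

/-!
# MP_bc74b8_gt: under CH, `Split(T,T)` is not preserved under squares
-/

set_option autoImplicit false

namespace Pool.Agent.Results.MP_bc74b8_gt.SquareTT

open Pool.Agent.H15.Tau

/-- Assume the continuum hypothesis. There is a set of reals `A` satisfying `Split(T,T)` (and even
`(T choose Γ)`) such that `A × A ⊆ ℝ²` does not satisfy `Split(T,T)` (nor `(T choose Γ)`). -/
theorem result (CH : Cardinal.continuum.{0} = Cardinal.aleph.{0} 1) :
    ∃ A : Set ℝ, SplitTT A ∧ TauGamma A ∧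
      ¬ SplitTT (A ×ˢ A : Set (ℝ × ℝ)) ∧ ¬ TauGamma (A ×ˢ A : Set (ℝ × ℝ)) :=
  final2 CH

end Pool.Agent.Results.MP_bc74b8_gt.SquareTT
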